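import Pool.Agent.Y181.NC.Stm0

/-!
Project NC (helper181), part BIN (helper182): two alternating binomial sums.
-/

set_option autoImplicit false

open Finset

namespace Pool.Agent.Y181.NC

/-- the alternating sum -/
def TT (d n j : ℕ) : ℤ :=
  ∑ i ∈ range (j + 1), (-1 : ℤ) ^ (j - i) * ((d - i).choose (d - j) : ℤ) * (n.choose i : ℤ)

theorem TT_zero (d n : ℕ) : TT d n 0 = 1 := by
  unfold TT
  simp

theorem TT_pascal (d n j : ℕ) :
    TT (d + 1) (n + 1) (j + 1) = TT (d + 1) n (j + 1) + TT d n j := by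
  unfold TT
  rw [sum_range_succ' _ (j + 1), sum_range_succ' _ (j + 1)]
  have h : ∀ i ∈ range (j + 1), (-1 : ℤ) ^ (j + 1 - (i + 1)) *
      ((d + 1 - (i + 1)).choose (d + 1 - (j + 1)) : ℤ) * ((n + 1).choose (i + 1) : ℤ) =
      (-1 : ℤ) ^ (j + 1 - (i + 1)) * ((d + 1 - (i + 1)).choose (d + 1 - (j + 1)) : ℤ) *
        (n.choose (i + 1) : ℤ) +
      (-1 : ℤ) ^ (j - i) * ((d - i).choose (d - j) : ℤ) * (n.choose i : ℤ) := by
    intro i _
    rw [Nat.choose_succ_succ, Nat.add_sub_add_right, Nat.add_sub_add_right, Nat.add_sub_add_right]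
    push_cast
    ring
  rw [sum_congr rfl h, sum_add_distrib]
  simp only [Nat.choose_zero_right]
  ring

theorem TT_diag (d j : ℕ) (hj : 1 ≤ j) (hd : j ≤ d) : TT d d j = 0 := by
  unfold TT
  have h : ∀ i ∈ range (j + 1), (-1 : ℤ) ^ (j - i) * ((d - i).choose (d - j) : ℤ) *
      (d.choose i : ℤ) = ((-1 : ℤ) ^ j * (d.choose j : ℤ)) * ((-1 : ℤ) ^ i * (j.choose i : ℤ)) := by
    intro i hi
    have hi' : i ≤ j := Nat.lt_succ_iff.1 (mem_range.1 hi)
    have h1 : (d - i).choose (d - j) = (d - i).choose (j - i) := by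
      have h2 : d - j = (d - i) - (j - i) := by omega
      rw [h2, Nat.choose_symm (by omega)]
    have h3 : d.choose j * j.choose i = d.choose i * (d - i).choose (j - i) :=
      Nat.choose_mul hi'
    have h3' : (d.choose j : ℤ) * (j.choose i : ℤ) = (d.choose i : ℤ) *
        ((d - i).choose (j - i) : ℤ) := by exact_mod_cast h3
    have h4 : (-1 : ℤ) ^ (j - i) = (-1 : ℤ) ^ j * (-1 : ℤ) ^ i := by
      obtain ⟨k, rfl⟩ := Nat.exists_eq_add_of_le hi'
      rw [Nat.add_sub_cancel_left, pow_add, mul_comm ((-1 : ℤ) ^ i), mul_assoc, ← mul_pow]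
      simp
    rw [h1, h4]
    linear_combination (-((-1 : ℤ) ^ j * (-1 : ℤ) ^ i)) * h3'
  rw [sum_congr rfl h, ← mul_sum, Int.alternating_sum_range_choose, if_neg (by omega), mul_zero]

theorem TT_one (d : ℕ) : ∀ j ≤ d, TT d (d + 1) j = 1 := by
  induction d with
  | zero =>
    intro j hj
    obtain rfl : j = 0 := by omega
    exact TT_zero _ _
  | succ d ih =>
    intro j hj
    cases j with
    | zero => exact TT_zero _ _
    | succ j =>
      rw [TT_pascal, TT_diag (d + 1) (j + 1) (by omega) (by omega), ih j (by omega), zero_add]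

theorem TT_two (d : ℕ) : ∀ j ≤ d, TT d (d + 2) j = j + 1 := by
  induction d with
  | zero =>
    intro j hj
    obtain rfl : j = 0 := by omega
    rw [TT_zero]
    simp
  | succ d ih =>
    intro j hj
    cases j with
    | zero =>
      rw [TT_zero]
      simp
    | succ j =>
      rw [show d + 1 + 2 = (d + 1 + 1) + 1 by ring, TT_pascal, TT_one (d + 1) (j + 1) (by omega),
        show d + 1 + 1 = d + 2 by ring, ih j (by omega)]
      push_cast
      ring

theorem TT_three (d : ℕ) : ∀ j ≤ d, TT d (d + 3) j = ((j + 2).choose 2 : ℤ) := by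
  induction d with
  | zero =>
    intro j hj
    obtain rfl : j = 0 := by omega
    rw [TT_zero]
    simp
  | succ d ih =>
    intro j hj
    cases j with
    | zero =>
      rw [TT_zero]
      simp
    | succ j =>
      rw [show d + 1 + 3 = (d + 1 + 2) + 1 by ring, TT_pascal, TT_two (d + 1) (j + 1) (by omega),
        show d + 1 + 2 = d + 3 by ring, ih j (by omega),
        show j + 1 + 2 = (j + 2) + 1 by ring, Nat.choose_succ_succ (j + 2) 1,
        Nat.choose_one_right]
      push_cast
      ring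

/-- **BIN** -/
theorem t_BIN : S_BIN := by
  constructor
  · intro d j hj
    exact TT_three d j hj
  · intro d j hd hj
    by_cases h3 : 3 ≤ j
    · rw [if_pos h3]
      obtain ⟨j', rfl⟩ := Nat.exists_eq_add_of_le' h3
      obtain ⟨d', rfl⟩ := Nat.exists_eq_add_of_le' hd
      have h1 := TT_three d' j' (by omega)
      rw [show j' + 3 - 1 = j' + 2 by omega, ← h1]
      unfold TT
      rw [show j' + 3 + 1 = (j' + 1) + 1 + 1 + 1 by ring, sum_range_succ' _ (j' + 1 + 1 + 1),
        sum_range_succ' _ (j' + 1 + 1), sum_range_succ' _ (j' + 1)]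
      have e1 : ¬ 3 ≤ 0 := by omega
      have e2 : ¬ 3 ≤ 0 + 1 := by omega
      have e3 : ¬ 3 ≤ 0 + 1 + 1 := by omega
      rw [if_neg e1, if_neg e2, if_neg e3, mul_zero, mul_zero, mul_zero, add_zero, add_zero,
        add_zero]
      refine sum_congr rfl fun i _ => ?_
      rw [if_pos (by omega), show i + 1 + 1 + 1 = i + 3 by ring, Nat.add_sub_add_right,
        Nat.add_sub_add_right, Nat.add_sub_add_right, Nat.add_sub_cancel]
    · rw [if_neg h3]
      refine sum_eq_zero fun i hi => ?_
      rw [if_neg (by have := mem_range.1 hi; omega), mul_zero]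

end Pool.Agent.Y181.NC
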