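import Pool.Agent.Y181.NC.Stm0

/-! Number of faces with at most `k` elements (written by helper232). -/

set_option autoImplicit false

open Finset

namespace Pool.Agent.Y181.NC

namespace Cnt

theorem card_BC {k d : ℕ} (hk : 3 ≤ k) (hd : 2 * k ≤ d) : (bB d ∪ bC k d).card = k := by
  have h : bB d ∪ bC k d = insert d (insert (d + 2) (Ico 3 (k + 1))) := by
    ext x
    simp only [bB, bC, mem_union, mem_singleton, mem_Ico, mem_insert]
    tauto
  rw [h, card_insert_of_notMem, card_insert_of_notMem, Nat.card_Ico]
  · omega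
  · simp only [mem_Ico]
    omega
  · simp only [mem_insert, mem_Ico]
    omega

theorem card_CD {k d : ℕ} (hk : 3 ≤ k) (hd : 2 * k ≤ d) : (bC k d ∪ bD).card = k := by
  have h : bC k d ∪ bD = insert 0 (insert (d + 2) (Ico 3 (k + 1))) := by
    ext x
    simp only [bD, bC, mem_union, mem_singleton, mem_Ico, mem_insert]
    tauto
  rw [h, card_insert_of_notMem, card_insert_of_notMem, Nat.card_Ico]
  · omega
  · simp only [mem_Ico]
    omega
  · simp only [mem_insert, mem_Ico]
    omega

theorem card_A {k d : ℕ} (hk : 3 ≤ k) (hd : 2 * k ≤ d) : (bA k d).card = d - k := by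
  have h : bA k d = insert (d + 1) (Ico (k + 1) d) := by
    ext x
    simp only [bA, mem_union, mem_singleton, mem_Ico, mem_insert]
    tauto
  rw [h, card_insert_of_notMem, Nat.card_Ico]
  · omega
  · simp only [mem_Ico]
    omega

theorem card_AB {k d : ℕ} (hk : 3 ≤ k) (hd : 2 * k ≤ d) : k < (bA k d ∪ bB d).card := by
  have h : insert d (bA k d) ⊆ bA k d ∪ bB d := by
    intro x hx
    rw [mem_insert] at hx
    rw [mem_union, bB, mem_singleton]
    tauto
  have h1 := card_le_card h
  rw [card_insert_of_notMem, card_A hk hd] at h1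
  · omega
  · simp only [bA, mem_union, mem_singleton, mem_Ico]
    omega

theorem card_EA {k d : ℕ} (hk : 3 ≤ k) (hd : 2 * k ≤ d) : k < (bE ∪ bA k d).card := by
  have h : insert 1 (bA k d) ⊆ bE ∪ bA k d := by
    intro x hx
    rw [mem_insert] at hx
    rw [mem_union, bE, mem_insert]
    tauto
  have h1 := card_le_card h
  rw [card_insert_of_notMem, card_A hk hd] at h1
  · omega
  · simp only [bA, mem_union, mem_singleton, mem_Ico]
    omega

/-- the sets which contain `{0, 1, 2}` -/
def TT (d i : ℕ) : Finset (Finset ℕ) := (powersetCard i (range (d + 3))).filter fun F =>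
  bD ∪ bE ⊆ F

/-- the exceptional sets -/
def XX (k d i : ℕ) : Finset (Finset ℕ) := (powersetCard i (range (d + 3))).filter fun F =>
  F = bB d ∪ bC k d ∨ F = bC k d ∪ bD

theorem DE_eq : bD ∪ bE = {0, 1, 2} := by
  ext x
  simp only [bD, bE, mem_union, mem_singleton, mem_insert]

theorem card_TT (d i : ℕ) : (TT d i).card = if 3 ≤ i then d.choose (i - 3) else 0 := by
  split_ifs with h
  · have h1 : (TT d i).card = (powersetCard (i - 3) (Ico 3 (d + 3))).card := by
      refine card_nbij' (fun F => F \ {0, 1, 2}) (fun S => S ∪ {0, 1, 2}) ?_ ?_ ?_ ?_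
      · intro F hF
        have hF' := Finset.mem_coe.1 hF
        unfold TT at hF'
        rw [mem_filter, mem_powersetCard, DE_eq] at hF'
        obtain ⟨⟨h2, h3⟩, h4⟩ := hF'
        rw [Finset.mem_coe, mem_powersetCard]
        refine ⟨?_, ?_⟩
        · intro x hx
          rw [mem_sdiff] at hx
          have h5 := h2 hx.1
          have h6 := hx.2
          simp only [mem_insert, mem_singleton] at h6
          rw [mem_range] at h5
          rw [mem_Ico]
          omega
        · rw [card_sdiff_of_subset h4, h3]
          rfl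
      · intro S hS
        have hS' := Finset.mem_coe.1 hS
        rw [mem_powersetCard] at hS'
        obtain ⟨h2, h3⟩ := hS'
        rw [Finset.mem_coe]
        unfold TT
        rw [mem_filter, mem_powersetCard, DE_eq]
        refine ⟨⟨?_, ?_⟩, subset_union_right⟩
        · intro x hx
          rw [mem_union] at hx
          rw [mem_range]
          rcases hx with hx | hx
          · have := mem_Ico.1 (h2 hx)
            omega
          · simp only [mem_insert, mem_singleton] at hx
            omega
        · rw [card_union_of_disjoint, h3]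
          · change i - 3 + 3 = i
            omega
          · rw [disjoint_left]
            intro x hx hx'
            have := mem_Ico.1 (h2 hx)
            simp only [mem_insert, mem_singleton] at hx'
            omega
      · intro F hF
        have hF' := Finset.mem_coe.1 hF
        unfold TT at hF'
        rw [mem_filter, mem_powersetCard, DE_eq] at hF'
        exact sdiff_union_of_subset hF'.2
      · intro S hS
        have hS' := Finset.mem_coe.1 hS
        rw [mem_powersetCard] at hS'
        obtain ⟨h2, h3⟩ := hS'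
        change (S ∪ {0, 1, 2}) \ {0, 1, 2} = S
        rw [union_sdiff_right, Finset.sdiff_eq_self_iff_disjoint, disjoint_left]
        intro x hx hx'
        have := mem_Ico.1 (h2 hx)
        simp only [mem_insert, mem_singleton] at hx'
        omega
    rw [h1, card_powersetCard, Nat.card_Ico]
    rfl
  · rw [card_eq_zero]
    unfold TT
    rw [filter_eq_empty_iff]
    intro F hF hs
    rw [mem_powersetCard] at hF
    rw [DE_eq] at hs
    have h1 := card_le_card hs
    rw [hF.2] at h1
    have h2 : ({0, 1, 2} : Finset ℕ).card = 3 := rfl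
    omega

theorem BC_ne {k d : ℕ} (hk : 3 ≤ k) (hd : 2 * k ≤ d) : bB d ∪ bC k d ≠ bC k d ∪ bD := by
  intro h
  have h1 : d ∈ bB d ∪ bC k d := mem_union_left _ (mem_singleton_self d)
  rw [h] at h1
  simp only [bC, bD, mem_union, mem_singleton, mem_Ico] at h1
  omega

theorem BC_sub {k d : ℕ} (hk : 3 ≤ k) (hd : 2 * k ≤ d) : bB d ∪ bC k d ⊆ range (d + 3) := by
  intro x hx
  simp only [bB, bC, mem_union, mem_singleton, mem_Ico] at hx
  rw [mem_range]
  omega

theorem CD_sub {k d : ℕ} (hk : 3 ≤ k) (hd : 2 * k ≤ d) : bC k d ∪ bD ⊆ range (d + 3) := by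
  intro x hx
  simp only [bD, bC, mem_union, mem_singleton, mem_Ico] at hx
  rw [mem_range]
  omega

theorem card_XX {k d i : ℕ} (hk : 3 ≤ k) (hd : 2 * k ≤ d) :
    (XX k d i).card = if i = k then 2 else 0 := by
  split_ifs with h
  · subst h
    have h1 : XX i d i = {bB d ∪ bC i d, bC i d ∪ bD} := by
      ext F
      unfold XX
      rw [mem_filter, mem_powersetCard, mem_insert, mem_singleton]
      constructor
      · exact fun h => h.2
      · intro h
        refine ⟨?_, h⟩
        rcases h with rfl | rfl
        · exact ⟨BC_sub hk hd, card_BC hk hd⟩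
        · exact ⟨CD_sub hk hd, card_CD hk hd⟩
    rw [h1, card_pair (BC_ne hk hd)]
  · rw [card_eq_zero]
    unfold XX
    rw [filter_eq_empty_iff]
    intro F hF hs
    rw [mem_powersetCard] at hF
    rcases hs with rfl | rfl
    · rw [card_BC hk hd] at hF
      exact h hF.2.symm
    · rw [card_CD hk hd] at hF
      exact h hF.2.symm

theorem split {k d i : ℕ} (hk : 3 ≤ k) (hd : 2 * k ≤ d) (hi : i ≤ k) :
    powersetCard i (range (d + 3)) = ((exF k d).filter fun τ => τ.card = i) ∪ (TT d i ∪ XX k d i) := by
  ext F
  rw [mem_union, mem_union, mem_filter, mem_exF, TT, XX, mem_filter, mem_filter, mem_powersetCard]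
  constructor
  · rintro ⟨h1, h2⟩
    by_cases hT : bD ∪ bE ⊆ F
    · exact Or.inr (Or.inl ⟨⟨h1, h2⟩, hT⟩)
    · by_cases hX : F = bB d ∪ bC k d ∨ F = bC k d ∪ bD
      · exact Or.inr (Or.inr ⟨⟨h1, h2⟩, hX⟩)
      · refine Or.inl ⟨⟨h1, ?_, ?_, ?_, hT, ?_⟩, h2⟩
        · intro h
          have h3 := card_le_card h
          have h4 := card_AB hk hd
          omega
        · intro h
          refine hX (Or.inl (eq_of_subset_of_card_le h ?_).symm)
          rw [card_BC hk hd, h2]
          exact hi
        · intro h
          refine hX (Or.inr (eq_of_subset_of_card_le h ?_).symm)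
          rw [card_CD hk hd, h2]
          exact hi
        · intro h
          have h3 := card_le_card h
          have h4 := card_EA hk hd
          omega
  · rintro (⟨⟨h1, -⟩, h2⟩ | ⟨h1, -⟩ | ⟨h1, -⟩)
    · exact ⟨h1, h2⟩
    · exact h1
    · exact h1

theorem disj1 (k d i : ℕ) :
    Disjoint ((exF k d).filter fun τ => τ.card = i) (TT d i ∪ XX k d i) := by
  rw [disjoint_left]
  intro F hF hF'
  rw [mem_filter, mem_exF] at hF
  obtain ⟨⟨-, -, h2, h3, h4, -⟩, -⟩ := hF
  rw [mem_union, TT, XX, mem_filter, mem_filter] at hF'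
  rcases hF' with ⟨-, h⟩ | ⟨-, h | h⟩
  · exact h4 h
  · exact h2 (by rw [h])
  · exact h3 (by rw [h])

theorem disj2 {k d i : ℕ} (hk : 3 ≤ k) (hd : 2 * k ≤ d) : Disjoint (TT d i) (XX k d i) := by
  rw [disjoint_left]
  intro F hF hF'
  rw [TT, mem_filter, DE_eq] at hF
  rw [XX, mem_filter] at hF'
  have h0 : 0 ∈ F := hF.2 (by simp)
  have h1 : 1 ∈ F := hF.2 (by simp)
  rcases hF'.2 with h | h
  · rw [h] at h0
    simp only [bB, bC, mem_union, mem_singleton, mem_Ico] at h0
    omega
  · rw [h] at h1
    simp only [bC, bD, mem_union, mem_singleton, mem_Ico] at h1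
    omega

end Cnt

theorem t_CNT : S_CNT := by
  intro k d i hk hd hi
  have h1 := congrArg Finset.card (Cnt.split hk hd hi)
  rw [card_union_of_disjoint (Cnt.disj1 k d i), card_union_of_disjoint (Cnt.disj2 hk hd),
    card_powersetCard, card_range, Cnt.card_TT, Cnt.card_XX hk hd] at h1
  have h2 : ((if 3 ≤ i then d.choose (i - 3) else 0 : ℕ) : ℤ) =
      if 3 ≤ i then (d.choose (i - 3) : ℤ) else 0 := by
    split_ifs <;> rfl
  have h3 : ((if i = k then 2 else 0 : ℕ) : ℤ) = if i = k then 2 else 0 := by
    split_ifs <;> rfl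
  rw [← h2, ← h3]
  omega

end Pool.Agent.Y181.NC
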