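import Pool.Agent.Y181.NC.Stm0

/-!
# Every exposed proper subset is a face
-/

set_option autoImplicit false

open Finset

namespace Pool.Agent.Y181.NC

theorem conv_core {α γ δ A B C D E1 E2 : ℝ} (hα : 0 < α) (hγ : 0 < γ) (hδ : 0 < δ) (hA : 0 ≤ A)
    (hB : 0 ≤ B) (hC : 0 ≤ C) (hD : 0 ≤ D) (hE1 : 0 ≤ E1) (hE2 : 0 ≤ E2)
    (r1 : A + δ * B = 2 * α * D + γ / 2 * (E1 + E2)) (r2 : δ * B + C = α * D + γ * (E1 + E2))
    (h : (A = 0 ∧ B = 0) ∨ (B = 0 ∧ C = 0) ∨ (C = 0 ∧ D = 0) ∨ (D = 0 ∧ E1 = 0 ∧ E2 = 0) ∨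
      (E1 = 0 ∧ E2 = 0 ∧ A = 0)) :
    A = 0 ∧ C = 0 ∧ D = 0 ∧ E1 = 0 ∧ E2 = 0 ∧ B = 0 := by
  have px : 0 ≤ δ * B := mul_nonneg hδ.le hB
  have py : 0 ≤ α * D := mul_nonneg hα.le hD
  have pz : 0 ≤ γ * (E1 + E2) := mul_nonneg hγ.le (add_nonneg hE1 hE2)
  have q1 : A + δ * B = 2 * (α * D) + (γ * (E1 + E2)) / 2 := by rw [r1]; ring
  have key : A = 0 ∧ C = 0 ∧ δ * B = 0 ∧ α * D = 0 ∧ γ * (E1 + E2) = 0 := by
    rcases h with ⟨u, v⟩ | ⟨u, v⟩ | ⟨u, v⟩ | ⟨u, v, w⟩ | ⟨u, v, w⟩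
    · have hx : δ * B = 0 := by rw [v, mul_zero]
      refine ⟨?_, ?_, ?_, ?_, ?_⟩ <;> linarith
    · have hx : δ * B = 0 := by rw [u, mul_zero]
      refine ⟨?_, ?_, ?_, ?_, ?_⟩ <;> linarith
    · have hy : α * D = 0 := by rw [v, mul_zero]
      refine ⟨?_, ?_, ?_, ?_, ?_⟩ <;> linarith
    · have hy : α * D = 0 := by rw [u, mul_zero]
      have hz : γ * (E1 + E2) = 0 := by rw [v, w, add_zero, mul_zero]
      refine ⟨?_, ?_, ?_, ?_, ?_⟩ <;> linarith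
    · have hz : γ * (E1 + E2) = 0 := by rw [u, v, add_zero, mul_zero]
      refine ⟨?_, ?_, ?_, ?_, ?_⟩ <;> linarith
  obtain ⟨k1, k2, k3, k4, k5⟩ := key
  have b0 : B = 0 := (mul_eq_zero.1 k3).resolve_left hδ.ne'
  have d0 : D = 0 := (mul_eq_zero.1 k4).resolve_left hα.ne'
  have e0 : E1 + E2 = 0 := (mul_eq_zero.1 k5).resolve_left hγ.ne'
  refine ⟨k1, k2, d0, ?_, ?_, b0⟩ <;> linarith

theorem t_CONV : S_CONV := by
  intro k d hk hd F hF s hrel h0 hpos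
  have hFs : F ⊆ range (d + 3) := hF.1
  have hnn : ∀ v ∈ range (d + 3), 0 ≤ s v := by
    intro v hv
    by_cases h : v ∈ F
    · exact (h0 v h).ge
    · exact (hpos v hv h).le
  have hk' : (3 : ℝ) ≤ k := by exact_mod_cast hk
  have hd' : 2 * (k : ℝ) ≤ d := by exact_mod_cast hd
  have mA : ∀ v ∈ bA k d, v ∈ range (d + 3) := by
    intro v hv
    simp only [bA, mem_union, mem_Ico, mem_singleton] at hv
    rw [mem_range]
    omega
  have mC : ∀ v ∈ bC k d, v ∈ range (d + 3) := by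
    intro v hv
    simp only [bC, mem_union, mem_Ico, mem_singleton] at hv
    rw [mem_range]
    omega
  have hSA : 0 ≤ ∑ v ∈ bA k d, s v := sum_nonneg fun v hv => hnn v (mA v hv)
  have hSC : 0 ≤ ∑ v ∈ bC k d, s v := sum_nonneg fun v hv => hnn v (mC v hv)
  have n0 : 0 ≤ s 0 := hnn 0 (mem_range.2 (by omega))
  have n1 : 0 ≤ s 1 := hnn 1 (mem_range.2 (by omega))
  have n2 : 0 ≤ s 2 := hnn 2 (mem_range.2 (by omega))
  have nd : 0 ≤ s d := hnn d (mem_range.2 (by omega))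
  -- at least one slack is positive
  have key : ¬ ((∑ v ∈ bA k d, s v = 0 ∧ s d = 0) ∨ (s d = 0 ∧ ∑ v ∈ bC k d, s v = 0) ∨
      (∑ v ∈ bC k d, s v = 0 ∧ s 0 = 0) ∨ (s 0 = 0 ∧ s 1 = 0 ∧ s 2 = 0) ∨
      (s 1 = 0 ∧ s 2 = 0 ∧ ∑ v ∈ bA k d, s v = 0)) := by
    intro h
    obtain ⟨hA, hC, e0, e1, e2, ed⟩ := conv_core (α := (d : ℝ) - k) (γ := (k : ℝ) - 1)
      (δ := (d : ℝ) - 1) (by linarith) (by linarith) (by linarith) hSA nd hSC n0 n1 n2 hrel.1
      hrel.2 h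
    have zA : ∀ v ∈ bA k d, s v = 0 :=
      (sum_eq_zero_iff_of_nonneg fun v hv => hnn v (mA v hv)).1 hA
    have zC : ∀ v ∈ bC k d, s v = 0 :=
      (sum_eq_zero_iff_of_nonneg fun v hv => hnn v (mC v hv)).1 hC
    apply hF.2
    intro v hv
    by_contra hvF
    have hp := hpos v hv hvF
    have hz : s v = 0 := by
      have hv' := mem_range.1 hv
      by_cases v0 : v = 0
      · rw [v0]; exact e0
      by_cases v1 : v = 1
      · rw [v1]; exact e1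
      by_cases v2 : v = 2
      · rw [v2]; exact e2
      by_cases vd : v = d
      · rw [vd]; exact ed
      by_cases h5 : v ∈ bA k d
      · exact zA v h5
      by_cases h6 : v ∈ bC k d
      · exact zC v h6
      exfalso
      simp only [bA, bC, mem_union, mem_Ico, mem_singleton] at h5 h6
      omega
    linarith
  rw [mem_exF]
  refine ⟨hFs, fun h => key ?_, fun h => key ?_, fun h => key ?_, fun h => key ?_,
    fun h => key ?_⟩
  · exact Or.inl ⟨sum_eq_zero fun v hv => h0 v (h (mem_union_left _ hv)),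
      h0 d (h (mem_union_right _ (by simp [bB])))⟩
  · exact Or.inr (Or.inl ⟨h0 d (h (mem_union_left _ (by simp [bB]))),
      sum_eq_zero fun v hv => h0 v (h (mem_union_right _ hv))⟩)
  · exact Or.inr (Or.inr (Or.inl ⟨sum_eq_zero fun v hv => h0 v (h (mem_union_left _ hv)),
      h0 0 (h (mem_union_right _ (by simp [bD])))⟩))
  · exact Or.inr (Or.inr (Or.inr (Or.inl ⟨h0 0 (h (mem_union_left _ (by simp [bD]))),
      h0 1 (h (mem_union_right _ (by simp [bE]))), h0 2 (h (mem_union_right _ (by simp [bE])))⟩)))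
  · exact Or.inr (Or.inr (Or.inr (Or.inr ⟨h0 1 (h (mem_union_left _ (by simp [bE]))),
      h0 2 (h (mem_union_left _ (by simp [bE]))),
      sum_eq_zero fun v hv => h0 v (h (mem_union_right _ hv))⟩)))

end Pool.Agent.Y181.NC
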