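import Pool.Agent.Y181.NC.Stm0

/-!
Every face is exposed (job NC-FIVE, helper899).
-/

set_option autoImplicit false

open Finset

namespace Pool.Agent.Y181.NC

theorem pos3 {x y z a b c : ℝ} (hx : 0 ≤ x) (hy : 0 ≤ y) (hz : 0 ≤ z) (ha : 0 < a) (hb : 0 < b)
    (hc : 0 < c) : 0 < a * x + b * y + c * z ↔ 0 < x ∨ 0 < y ∨ 0 < z := by
  have h1 : 0 ≤ a * x := by positivity
  have h2 : 0 ≤ b * y := by positivity
  have h3 : 0 ≤ c * z := by positivity
  constructor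
  · intro h
    by_contra hcon
    push Not at hcon
    obtain ⟨e1, e2, e3⟩ := hcon
    have f1 : x = 0 := le_antisymm e1 hx
    have f2 : y = 0 := le_antisymm e2 hy
    have f3 : z = 0 := le_antisymm e3 hz
    rw [f1, f2, f3] at h
    simp at h
  · rintro (h | h | h)
    · have : 0 < a * x := by positivity
      linarith
    · have : 0 < b * y := by positivity
      linarith
    · have : 0 < c * z := by positivity
      linarith

theorem ex_w (P : Prop) : ∃ w : ℝ, 0 ≤ w ∧ (0 < w ↔ P) := by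
  by_cases h : P
  · exact ⟨1, zero_le_one, by simp [h]⟩
  · exact ⟨0, le_refl _, by simp [h]⟩

theorem propA (pa pb pc pd pe : Prop) (h1 : pa ∨ pb) (h2 : pb ∨ pc) (h3 : pc ∨ pd) (h4 : pd ∨ pe)
    (h5 : pe ∨ pa) : (pa ∧ pc ∧ pe) ∨ (pa ∧ pc ∧ pd) ∨ (pa ∧ pb ∧ pd) ↔ pa := by
  by_cases pa <;> by_cases pb <;> by_cases pc <;> by_cases pd <;> by_cases pe <;> simp_all

theorem propB (pa pb pc pd pe : Prop) (h1 : pa ∨ pb) (h2 : pb ∨ pc) (h3 : pc ∨ pd) (h4 : pd ∨ pe)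
    (h5 : pe ∨ pa) : (pb ∧ pd ∧ pe) ∨ (pb ∧ pc ∧ pe) ∨ (pa ∧ pb ∧ pd) ↔ pb := by
  by_cases pa <;> by_cases pb <;> by_cases pc <;> by_cases pd <;> by_cases pe <;> simp_all

theorem propC (pa pb pc pd pe : Prop) (h1 : pa ∨ pb) (h2 : pb ∨ pc) (h3 : pc ∨ pd) (h4 : pd ∨ pe)
    (h5 : pe ∨ pa) : (pb ∧ pc ∧ pe) ∨ (pa ∧ pc ∧ pe) ∨ (pa ∧ pc ∧ pd) ↔ pc := by
  by_cases pa <;> by_cases pb <;> by_cases pc <;> by_cases pd <;> by_cases pe <;> simp_all

theorem propD (pa pb pc pd pe : Prop) (h1 : pa ∨ pb) (h2 : pb ∨ pc) (h3 : pc ∨ pd) (h4 : pd ∨ pe)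
    (h5 : pe ∨ pa) : (pb ∧ pd ∧ pe) ∨ (pa ∧ pc ∧ pd) ∨ (pa ∧ pb ∧ pd) ↔ pd := by
  by_cases pa <;> by_cases pb <;> by_cases pc <;> by_cases pd <;> by_cases pe <;> simp_all

theorem propE (pa pb pc pd pe : Prop) (h1 : pa ∨ pb) (h2 : pb ∨ pc) (h3 : pc ∨ pd) (h4 : pd ∨ pe)
    (h5 : pe ∨ pa) : (pb ∧ pd ∧ pe) ∨ (pb ∧ pc ∧ pe) ∨ (pa ∧ pc ∧ pe) ↔ pe := by
  by_cases pa <;> by_cases pb <;> by_cases pc <;> by_cases pd <;> by_cases pe <;> simp_all

theorem t_FIVE : S_FIVE := by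
  intro a g ha hg pa pb pc pd pe h1 h2 h3 h4 h5
  obtain ⟨w1, hw1, i1⟩ := ex_w (pb ∧ pd ∧ pe)
  obtain ⟨w2, hw2, i2⟩ := ex_w (pb ∧ pc ∧ pe)
  obtain ⟨w3, hw3, i3⟩ := ex_w (pa ∧ pc ∧ pe)
  obtain ⟨w4, hw4, i4⟩ := ex_w (pa ∧ pc ∧ pd)
  obtain ⟨w5, hw5, i5⟩ := ex_w (pa ∧ pb ∧ pd)
  have hag : 0 < a + g := by linarith
  have hB : (a + g) * ((3 / 2 * a * g / (a + g)) * w1 + (g / 2 / (a + g)) * w2 +
      (a / (a + g)) * w5) = 3 / 2 * a * g * w1 + g / 2 * w2 + a * w5 := by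
    field_simp
  refine ⟨g / 2 * w3 + 2 * a * w4 + a * w5,
    (3 / 2 * a * g / (a + g)) * w1 + (g / 2 / (a + g)) * w2 + (a / (a + g)) * w5,
    g / 2 * w2 + g * w3 + a * w4, g / 2 * w1 + 1 * w4 + 1 * w5, a * w1 + 1 * w2 + 1 * w3,
    ⟨by positivity, by positivity, by positivity, by positivity, by positivity⟩,
    ⟨?_, ?_, ?_, ?_, ?_⟩, ?_, ?_⟩
  · rw [pos3 hw3 hw4 hw5 (by positivity) (by positivity) (by positivity), i3, i4, i5]
    exact propA _ _ _ _ _ h1 h2 h3 h4 h5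
  · rw [pos3 hw1 hw2 hw5 (by positivity) (by positivity) (by positivity), i1, i2, i5]
    exact propB _ _ _ _ _ h1 h2 h3 h4 h5
  · rw [pos3 hw2 hw3 hw4 (by positivity) (by positivity) (by positivity), i2, i3, i4]
    exact propC _ _ _ _ _ h1 h2 h3 h4 h5
  · rw [pos3 hw1 hw4 hw5 (by positivity) (by positivity) (by positivity), i1, i4, i5]
    exact propD _ _ _ _ _ h1 h2 h3 h4 h5
  · rw [pos3 hw1 hw2 hw3 (by positivity) (by positivity) (by positivity), i1, i2, i3]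
    exact propE _ _ _ _ _ h1 h2 h3 h4 h5
  · rw [hB]
    ring
  · rw [hB]
    ring

theorem sum_lem (S G : Finset ℕ) (x : ℝ) (hx0 : 0 ≤ x) (hx : 0 < x ↔ (G ∩ S).Nonempty) :
    ∑ v ∈ S, (if v ∈ G then x / ((G ∩ S).card : ℝ) else 0) = x := by
  rw [← Finset.sum_filter, Finset.sum_const, nsmul_eq_mul]
  have h1 : S.filter (fun v => v ∈ G) = G ∩ S := by
    ext v
    rw [Finset.mem_filter, Finset.mem_inter, and_comm]
  rw [h1]
  by_cases h : (G ∩ S).Nonempty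
  · have h2 : (0 : ℝ) < ((G ∩ S).card : ℝ) := by exact_mod_cast Finset.card_pos.2 h
    field_simp
  · have h2 : ¬ 0 < x := fun h3 => h (hx.1 h3)
    have h3 : x = 0 := le_antisymm (not_lt.1 h2) hx0
    rw [h3]
    simp

theorem mem_bA (k d v : ℕ) : v ∈ bA k d ↔ (k + 1 ≤ v ∧ v < d) ∨ v = d + 1 := by
  unfold bA
  rw [Finset.mem_union, Finset.mem_Ico, Finset.mem_singleton]

theorem mem_bB (d v : ℕ) : v ∈ bB d ↔ v = d := by
  unfold bB
  rw [Finset.mem_singleton]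

theorem mem_bC (k d v : ℕ) : v ∈ bC k d ↔ (3 ≤ v ∧ v < k + 1) ∨ v = d + 2 := by
  unfold bC
  rw [Finset.mem_union, Finset.mem_Ico, Finset.mem_singleton]

theorem mem_bD (v : ℕ) : v ∈ bD ↔ v = 0 := by
  unfold bD
  rw [Finset.mem_singleton]

theorem mem_bE (v : ℕ) : v ∈ bE ↔ v = 1 ∨ v = 2 := by
  unfold bE
  rw [Finset.mem_insert, Finset.mem_singleton]

/-- the blocks not contained in `F` -/
theorem or_lem {d : ℕ} {F S S' : Finset ℕ} (hS : S ⊆ range (d + 3)) (hS' : S' ⊆ range (d + 3))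
    (h : ¬ S ∪ S' ⊆ F) :
    ((range (d + 3) \ F) ∩ S).Nonempty ∨ ((range (d + 3) \ F) ∩ S').Nonempty := by
  rw [Finset.not_subset] at h
  obtain ⟨v, hv, hvF⟩ := h
  rw [Finset.mem_union] at hv
  rcases hv with hv | hv
  · exact Or.inl ⟨v, Finset.mem_inter.2 ⟨Finset.mem_sdiff.2 ⟨hS hv, hvF⟩, hv⟩⟩
  · exact Or.inr ⟨v, Finset.mem_inter.2 ⟨Finset.mem_sdiff.2 ⟨hS' hv, hvF⟩, hv⟩⟩

theorem t_EXP : S_EXP := by
  intro k d hk hkd F hF
  rw [mem_exF] at hF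
  obtain ⟨-, n1, n2, n3, n4, n5⟩ := hF
  have sA : bA k d ⊆ range (d + 3) := fun v hv => by
    rw [mem_bA] at hv; rw [Finset.mem_range]; omega
  have sB : bB d ⊆ range (d + 3) := fun v hv => by
    rw [mem_bB] at hv; rw [Finset.mem_range]; omega
  have sC : bC k d ⊆ range (d + 3) := fun v hv => by
    rw [mem_bC] at hv; rw [Finset.mem_range]; omega
  have sD : bD ⊆ range (d + 3) := fun v hv => by
    rw [mem_bD] at hv; rw [Finset.mem_range]; omega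
  have sE : bE ⊆ range (d + 3) := fun v hv => by
    rw [mem_bE] at hv; rw [Finset.mem_range]; omega
  have hk' : (3 : ℝ) ≤ k := by exact_mod_cast hk
  have hkd' : (2 : ℝ) * k ≤ d := by exact_mod_cast hkd
  obtain ⟨A, B, C, D, E, ⟨hA0, hB0, hC0, hD0, hE0⟩, ⟨iA, iB, iC, iD, iE⟩, e1, e2⟩ :=
    t_FIVE ((d : ℝ) - k) ((k : ℝ) - 1) (by linarith) (by linarith)
      _ _ _ _ _ (or_lem sA sB n1) (or_lem sB sC n2) (or_lem sC sD n3) (or_lem sD sE n4)
      (or_lem sE sA n5)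
  set G := range (d + 3) \ F with hG
  let s : ℕ → ℝ := fun v => if v ∈ G then
    (if v ∈ bA k d then A / ((G ∩ bA k d).card : ℝ) else
      if v ∈ bB d then B / ((G ∩ bB d).card : ℝ) else
      if v ∈ bC k d then C / ((G ∩ bC k d).card : ℝ) else
      if v ∈ bD then D / ((G ∩ bD).card : ℝ) else E / ((G ∩ bE).card : ℝ)) else 0
  have s_eq : ∀ v, s v = if v ∈ G then
    (if v ∈ bA k d then A / ((G ∩ bA k d).card : ℝ) else
      if v ∈ bB d then B / ((G ∩ bB d).card : ℝ) else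
      if v ∈ bC k d then C / ((G ∩ bC k d).card : ℝ) else
      if v ∈ bD then D / ((G ∩ bD).card : ℝ) else E / ((G ∩ bE).card : ℝ)) else 0 := fun v => rfl
  have tA : ∑ v ∈ bA k d, s v = A := by
    rw [← sum_lem (bA k d) G A hA0 iA]
    refine Finset.sum_congr rfl fun v hv => ?_
    rw [s_eq, if_pos hv]
  have tB : ∑ v ∈ bB d, s v = B := by
    rw [← sum_lem (bB d) G B hB0 iB]
    refine Finset.sum_congr rfl fun v hv => ?_
    have h1 : v ∉ bA k d := by rw [mem_bA]; rw [mem_bB] at hv; omega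
    rw [s_eq, if_neg h1, if_pos hv]
  have tC : ∑ v ∈ bC k d, s v = C := by
    rw [← sum_lem (bC k d) G C hC0 iC]
    refine Finset.sum_congr rfl fun v hv => ?_
    have h1 : v ∉ bA k d := by rw [mem_bA]; rw [mem_bC] at hv; omega
    have h2 : v ∉ bB d := by rw [mem_bB]; rw [mem_bC] at hv; omega
    rw [s_eq, if_neg h1, if_neg h2, if_pos hv]
  have tD : ∑ v ∈ bD, s v = D := by
    rw [← sum_lem bD G D hD0 iD]
    refine Finset.sum_congr rfl fun v hv => ?_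
    have h1 : v ∉ bA k d := by rw [mem_bA]; rw [mem_bD] at hv; omega
    have h2 : v ∉ bB d := by rw [mem_bB]; rw [mem_bD] at hv; omega
    have h3 : v ∉ bC k d := by rw [mem_bC]; rw [mem_bD] at hv; omega
    rw [s_eq, if_neg h1, if_neg h2, if_neg h3, if_pos hv]
  have tE : ∑ v ∈ bE, s v = E := by
    rw [← sum_lem bE G E hE0 iE]
    refine Finset.sum_congr rfl fun v hv => ?_
    have h1 : v ∉ bA k d := by rw [mem_bA]; rw [mem_bE] at hv; omega
    have h2 : v ∉ bB d := by rw [mem_bB]; rw [mem_bE] at hv; omega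
    have h3 : v ∉ bC k d := by rw [mem_bC]; rw [mem_bE] at hv; omega
    have h4 : v ∉ bD := by rw [mem_bD]; rw [mem_bE] at hv; omega
    rw [s_eq, if_neg h1, if_neg h2, if_neg h3, if_neg h4]
  have uB : s d = B := by
    rw [← tB]
    unfold bB
    rw [Finset.sum_singleton]
  have uD : s 0 = D := by
    rw [← tD]
    unfold bD
    rw [Finset.sum_singleton]
  have uE : s 1 + s 2 = E := by
    rw [← tE]
    unfold bE
    rw [Finset.sum_pair (by norm_num)]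
  refine ⟨s, ⟨?_, ?_⟩, ?_, ?_⟩
  · rw [tA, uB, uD, uE]
    linarith
  · rw [tC, uB, uD, uE]
    linarith
  · intro v hv
    rw [s_eq, if_neg]
    rw [hG, Finset.mem_sdiff]
    exact fun h => h.2 hv
  · intro v hv hvF
    have hvG : v ∈ G := by
      rw [hG]
      exact Finset.mem_sdiff.2 ⟨hv, hvF⟩
    have key : ∀ (S : Finset ℕ) (x : ℝ), (0 < x ↔ (G ∩ S).Nonempty) → v ∈ S →
        0 < x / ((G ∩ S).card : ℝ) := by
      intro S x hx hvS
      have hne : (G ∩ S).Nonempty := ⟨v, Finset.mem_inter.2 ⟨hvG, hvS⟩⟩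
      have h1 : (0 : ℝ) < ((G ∩ S).card : ℝ) := by exact_mod_cast Finset.card_pos.2 hne
      exact div_pos (hx.2 hne) h1
    rw [s_eq, if_pos hvG]
    split_ifs with h1 h2 h3 h4
    · exact key _ _ iA h1
    · exact key _ _ iB h2
    · exact key _ _ iC h3
    · exact key _ _ iD h4
    · apply key _ _ iE
      rw [mem_bE]
      rw [mem_bA] at h1
      rw [mem_bB] at h2
      rw [mem_bC] at h3
      rw [mem_bD] at h4
      rw [Finset.mem_range] at hv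
      omega

end Pool.Agent.Y181.NC
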