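import Pool.Agent.Y181.NC.Stm0

/-!
The functions with the two relations are the affine functions on the vertices (helper65).
-/

set_option autoImplicit false

open Finset

namespace Pool.Agent.Y181.NC.Lin

theorem split (k d : ℕ) (hk : 3 ≤ k) (hd : k + 1 ≤ d) (h : ℕ → ℝ) :
    ∑ i ∈ range d, h i = h 0 + h 1 + h 2 + ∑ i ∈ Ico 3 (k + 1), h i + ∑ i ∈ Ico (k + 1) d, h i := by
  rw [Finset.range_eq_Ico, ← Finset.sum_Ico_consecutive h (Nat.zero_le 3) (by omega : 3 ≤ d),
    ← Finset.sum_Ico_consecutive h (by omega : 3 ≤ k + 1) hd, ← Finset.range_eq_Ico,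
    Finset.sum_range_succ, Finset.sum_range_succ, Finset.sum_range_one]
  ring

theorem ev_e (k d : ℕ) (L : ℕ → ℝ) (v : ℕ) (hv : v < d) :
    ∑ i : Fin d, pt k d v i * L i.1 = L v := by
  rw [Finset.sum_eq_single (⟨v, hv⟩ : Fin d)]
  · simp [pt, hv]
  · intro i _ hi
    have : i.1 ≠ v := fun h => hi (Fin.ext h)
    simp [pt, hv, this]
  · intro h
    exact absurd (mem_univ _) h

theorem ev_d (k d : ℕ) (L : ℕ → ℝ) : ∑ i : Fin d, pt k d d i * L i.1 = 0 := by
  apply Finset.sum_eq_zero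
  intro i _
  have : pt k d d i = 0 := by
    unfold pt
    rw [if_neg (lt_irrefl d), if_neg (by omega), if_neg (by omega)]
  rw [this, zero_mul]

theorem ev_1 (k d : ℕ) (hk : 3 ≤ k) (hd : 2 * k ≤ d) (L : ℕ → ℝ) :
    ∑ i : Fin d, pt k d (d + 1) i * L i.1 = 2 * ((d : ℝ) - k) * L 0 + ((k : ℝ) - 1) / 2 * (L 1 + L 2) -
      ∑ i ∈ Ico (k + 1) d, L i := by
  have h1 : ∑ i : Fin d, pt k d (d + 1) i * L i.1 = ∑ i ∈ range d,
      (if k < i then -1 else if i = 0 then 2 * ((d : ℝ) - k) else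
        if i ≤ 2 then ((k : ℝ) - 1) / 2 else 0) * L i := by
    rw [Finset.sum_range]
    refine Finset.sum_congr rfl fun i _ => ?_
    unfold pt
    rw [if_neg (by omega), if_pos rfl]
  rw [h1, split k d hk (by omega)]
  have h2 : ∑ i ∈ Ico 3 (k + 1), (if k < i then -1 else if i = 0 then 2 * ((d : ℝ) - k) else
        if i ≤ 2 then ((k : ℝ) - 1) / 2 else 0) * L i = 0 := by
    apply Finset.sum_eq_zero
    intro i hi
    rw [mem_Ico] at hi
    rw [if_neg (by omega), if_neg (by omega), if_neg (by omega), zero_mul]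
  have h3 : ∑ i ∈ Ico (k + 1) d, (if k < i then -1 else if i = 0 then 2 * ((d : ℝ) - k) else
        if i ≤ 2 then ((k : ℝ) - 1) / 2 else 0) * L i = - ∑ i ∈ Ico (k + 1) d, L i := by
    rw [← Finset.sum_neg_distrib]
    refine Finset.sum_congr rfl fun i hi => ?_
    rw [mem_Ico] at hi
    rw [if_pos (by omega)]
    ring
  rw [h2, h3, if_neg (by omega : ¬ k < 0), if_neg (by omega : ¬ k < 1), if_neg (by omega : ¬ k < 2)]
  norm_num
  ring

theorem ev_2 (k d : ℕ) (hk : 3 ≤ k) (hd : 2 * k ≤ d) (L : ℕ → ℝ) :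
    ∑ i : Fin d, pt k d (d + 2) i * L i.1 = ((d : ℝ) - k) * L 0 + ((k : ℝ) - 1) * (L 1 + L 2) -
      ∑ i ∈ Ico 3 (k + 1), L i := by
  have h1 : ∑ i : Fin d, pt k d (d + 2) i * L i.1 = ∑ i ∈ range d,
      (if k < i then 0 else if i = 0 then (d : ℝ) - k else
        if i ≤ 2 then (k : ℝ) - 1 else -1) * L i := by
    rw [Finset.sum_range]
    refine Finset.sum_congr rfl fun i _ => ?_
    unfold pt
    rw [if_neg (by omega), if_neg (by omega), if_pos rfl]
  rw [h1, split k d hk (by omega)]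
  have h2 : ∑ i ∈ Ico (k + 1) d, (if k < i then 0 else if i = 0 then (d : ℝ) - k else
        if i ≤ 2 then (k : ℝ) - 1 else -1) * L i = 0 := by
    apply Finset.sum_eq_zero
    intro i hi
    rw [mem_Ico] at hi
    rw [if_pos (by omega), zero_mul]
  have h3 : ∑ i ∈ Ico 3 (k + 1), (if k < i then 0 else if i = 0 then (d : ℝ) - k else
        if i ≤ 2 then (k : ℝ) - 1 else -1) * L i = - ∑ i ∈ Ico 3 (k + 1), L i := by
    rw [← Finset.sum_neg_distrib]
    refine Finset.sum_congr rfl fun i hi => ?_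
    rw [mem_Ico] at hi
    rw [if_neg (by omega), if_neg (by omega), if_neg (by omega)]
    ring
  rw [h2, h3, if_neg (by omega : ¬ k < 0), if_neg (by omega : ¬ k < 1), if_neg (by omega : ¬ k < 2)]
  norm_num
  ring

theorem sum_bA (k d : ℕ) (s : ℕ → ℝ) :
    ∑ v ∈ bA k d, s v = ∑ i ∈ Ico (k + 1) d, s i + s (d + 1) := by
  unfold bA
  rw [Finset.sum_union, Finset.sum_singleton]
  rw [Finset.disjoint_singleton_right, mem_Ico]
  omega

theorem sum_bC (k d : ℕ) (hd : 2 * k ≤ d) (s : ℕ → ℝ) :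
    ∑ v ∈ bC k d, s v = ∑ i ∈ Ico 3 (k + 1), s i + s (d + 2) := by
  unfold bC
  rw [Finset.sum_union, Finset.sum_singleton]
  rw [Finset.disjoint_singleton_right, mem_Ico]
  omega

theorem lin_eq (k d : ℕ) (ℓ : (Fin d → ℝ) →ₗ[ℝ] ℝ) (x : Fin d → ℝ) :
    ℓ x = ∑ i : Fin d, x i * ℓ (pt k d i.1) := by
  rw [LinearMap.pi_apply_eq_sum_univ]
  refine Finset.sum_congr rfl fun i _ => ?_
  rw [smul_eq_mul]
  congr 2
  funext j
  unfold pt
  rw [if_pos i.2]
  by_cases h : i = j
  · rw [if_pos h, if_pos (by rw [h])]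
  · rw [if_neg h, if_neg (fun h' => h (Fin.ext h'.symm))]

end Pool.Agent.Y181.NC.Lin

namespace Pool.Agent.Y181.NC

open Lin

theorem t_LIN : S_LIN := by
  intro k d hk hd
  refine ⟨fun s => ⟨?_, ?_⟩, ?_⟩
  · rintro ⟨ℓ, c, h⟩
    have hL : ∀ i, i < d → ℓ (pt k d i) = c - s i := fun i hi => h i (mem_range.2 (by omega))
    have hd0 : s d = c := by
      have h1 := h d (mem_range.2 (by omega))
      rw [lin_eq k d, ev_d k d (fun i => ℓ (pt k d i))] at h1
      linarith
    have h1 := h (d + 1) (mem_range.2 (by omega))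
    rw [lin_eq k d, ev_1 k d hk hd (fun i => ℓ (pt k d i)), hL 0 (by omega), hL 1 (by omega),
      hL 2 (by omega)] at h1
    have h2 := h (d + 2) (mem_range.2 (by omega))
    rw [lin_eq k d, ev_2 k d hk hd (fun i => ℓ (pt k d i)), hL 0 (by omega), hL 1 (by omega),
      hL 2 (by omega)] at h2
    have e1 : ∑ i ∈ Ico (k + 1) d, ℓ (pt k d i) = ((d : ℝ) - k - 1) * c - ∑ i ∈ Ico (k + 1) d, s i := by
      have : ∑ i ∈ Ico (k + 1) d, ℓ (pt k d i) = ∑ i ∈ Ico (k + 1) d, (c - s i) :=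
        Finset.sum_congr rfl fun i hi => hL i (mem_Ico.1 hi).2
      rw [this, Finset.sum_sub_distrib, Finset.sum_const, Nat.card_Ico, nsmul_eq_mul,
        Nat.cast_sub (by omega)]
      push_cast
      ring
    have e2 : ∑ i ∈ Ico 3 (k + 1), ℓ (pt k d i) = ((k : ℝ) - 2) * c - ∑ i ∈ Ico 3 (k + 1), s i := by
      have : ∑ i ∈ Ico 3 (k + 1), ℓ (pt k d i) = ∑ i ∈ Ico 3 (k + 1), (c - s i) :=
        Finset.sum_congr rfl fun i hi => hL i (by have := (mem_Ico.1 hi).2; omega)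
      rw [this, Finset.sum_sub_distrib, Finset.sum_const, Nat.card_Ico, nsmul_eq_mul,
        Nat.cast_sub (by omega)]
      push_cast
      ring
    rw [e1] at h1
    rw [e2] at h2
    refine ⟨?_, ?_⟩
    · rw [sum_bA, hd0]
      linear_combination h1
    · rw [sum_bC k d hd, hd0]
      linear_combination h2
  · rintro ⟨h1, h2⟩
    rw [sum_bA] at h1
    rw [sum_bC k d hd] at h2
    have e1 : ∑ i ∈ Ico (k + 1) d, (s d - s i) = ((d : ℝ) - k - 1) * s d - ∑ i ∈ Ico (k + 1) d, s i := by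
      rw [Finset.sum_sub_distrib, Finset.sum_const, Nat.card_Ico, nsmul_eq_mul,
        Nat.cast_sub (by omega)]
      push_cast
      ring
    have e2 : ∑ i ∈ Ico 3 (k + 1), (s d - s i) = ((k : ℝ) - 2) * s d - ∑ i ∈ Ico 3 (k + 1), s i := by
      rw [Finset.sum_sub_distrib, Finset.sum_const, Nat.card_Ico, nsmul_eq_mul,
        Nat.cast_sub (by omega)]
      push_cast
      ring
    obtain ⟨ℓ, hℓ⟩ : ∃ ℓ : (Fin d → ℝ) →ₗ[ℝ] ℝ, ∀ x, ℓ x = ∑ i : Fin d, x i * (s d - s i.1) := by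
      refine ⟨∑ i : Fin d, (s d - s i.1) • LinearMap.proj i, fun x => ?_⟩
      rw [LinearMap.sum_apply]
      refine Finset.sum_congr rfl fun i _ => ?_
      rw [LinearMap.smul_apply, LinearMap.proj_apply, smul_eq_mul, mul_comm]
    refine ⟨ℓ, s d, fun v hv => ?_⟩
    rw [mem_range] at hv
    rw [hℓ]
    rcases lt_or_ge v d with hvd | hvd
    · exact ev_e k d (fun i => s d - s i) v hvd
    · obtain rfl | rfl | rfl : v = d ∨ v = d + 1 ∨ v = d + 2 := by omega
      · rw [ev_d k v (fun i => s v - s i), sub_self]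
      · rw [ev_1 k d hk hd (fun i => s d - s i), e1]
        linear_combination h1
      · rw [ev_2 k d hk hd (fun i => s d - s i), e2]
        linear_combination h2
  · intro ℓ c h
    have hc : c = 0 := by
      have h1 := h d (mem_range.2 (by omega))
      rw [lin_eq k d, ev_d k d (fun i => ℓ (pt k d i))] at h1
      exact h1.symm
    apply LinearMap.ext
    intro x
    rw [lin_eq k d, LinearMap.zero_apply]
    apply Finset.sum_eq_zero
    intro i _
    rw [h i.1 (mem_range.2 (by omega)), hc, mul_zero]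

end Pool.Agent.Y181.NC
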