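import Pool.Agent.Y181.NC.No
import Pool.Agent.Y181.NC.Bin
import Pool.Agent.Y181.NC.Cnt
import Pool.Agent.Y181.NC.Lin
import Pool.Agent.Y181.NC.Conv
import Pool.Agent.Y181.NC.Exp

set_option autoImplicit false

open Finset
open Pool.Agent.Results.MP_3cda5a_co.NoCellComplex

namespace Pool.Agent.Y181.NC

theorem t_G : S_G := by
  intro k d hk hd
  have hcnt : ∀ i ≤ k, (numFaces (exF k d) i : ℤ) = ((d + 3).choose i : ℤ) -
      (if 3 ≤ i then (d.choose (i - 3) : ℤ) else 0) - (if i = k then 2 else 0) :=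
    fun i hi => t_CNT k d i hk hd hi
  obtain ⟨hb1, hb2⟩ := t_BIN
  have h1 : ∀ j ≤ k, hNum d (exF k d) j = ((j + 2).choose 2 : ℤ) -
      (if 3 ≤ j then ((j - 1).choose 2 : ℤ) else 0) - (if j = k then 2 else 0) := by
    intro j hj
    rw [← hb1 d j (by omega), ← hb2 d j (by omega) (by omega)]
    unfold hNum
    have e : ∀ i ∈ range (j + 1), (-1 : ℤ) ^ (j - i) * ((d - i).choose (d - j) : ℤ) *
        (numFaces (exF k d) i : ℤ) = (-1 : ℤ) ^ (j - i) * ((d - i).choose (d - j) : ℤ) *
        ((d + 3).choose i : ℤ) - (-1 : ℤ) ^ (j - i) * ((d - i).choose (d - j) : ℤ) *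
        (if 3 ≤ i then (d.choose (i - 3) : ℤ) else 0) -
        (if i = j then (if j = k then 2 else 0) else 0) := by
      intro i hi
      rw [Finset.mem_range] at hi
      rw [hcnt i (by omega)]
      by_cases hij : i = j
      · subst hij
        rw [Nat.sub_self, pow_zero, Nat.choose_self, if_pos (rfl : i = i)]
        push_cast
        ring
      · rw [if_neg hij, if_neg (by omega : ¬ i = k)]
        ring
    rw [Finset.sum_congr rfl e, Finset.sum_sub_distrib, Finset.sum_sub_distrib,
      Finset.sum_ite_eq' (range (j + 1)) j, if_pos (by simp)]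
  unfold gNum
  rw [if_neg (by omega), h1 k le_rfl, h1 (k - 1) (by omega)]
  obtain ⟨m, rfl⟩ : ∃ m, k = m + 3 := ⟨k - 3, by omega⟩
  rw [if_pos (by omega : 3 ≤ m + 3), if_pos rfl, if_neg (by omega : ¬ m + 3 - 1 = m + 3)]
  have a1 : m + 3 + 2 = (m + 4) + 1 := by ring
  have a2 : m + 3 - 1 + 2 = m + 4 := by omega
  have a3 : m + 3 - 1 = (m + 1) + 1 := by omega
  rw [a1, Nat.choose_succ_succ' (m + 4) 1, a2, a3, Nat.choose_succ_succ' (m + 1) 1]
  have a4 : m + 1 + 1 - 1 = m + 1 := by omega
  rw [a4]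
  have a5 : (if 3 ≤ m + 1 + 1 then ((m + 1).choose 2 : ℤ) else 0) = ((m + 1).choose 2 : ℤ) := by
    by_cases h : 3 ≤ m + 1 + 1
    · rw [if_pos h]
    · rw [if_neg h]
      have : m = 0 := by omega
      subst this
      simp
  rw [a5, Nat.choose_one_right, Nat.choose_one_right]
  push_cast
  ring

theorem t_POL (hE : S_EXP) : S_POL := by
  intro k d hk hd
  have hV : verts (exF k d) = range (d + 3) := by
    ext v
    unfold verts
    rw [Finset.mem_sup]
    constructor
    · rintro ⟨F, hF, hv⟩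
      exact ((mem_exF k d F).1 hF).1 hv
    · intro hv
      refine ⟨{v}, ?_, Finset.mem_singleton_self v⟩
      rw [mem_exF]
      refine ⟨Finset.singleton_subset_iff.2 hv, ?_, ?_, ?_, ?_, ?_⟩
      · intro h
        have h1 := h (show d ∈ bA k d ∪ bB d by simp [bB])
        have h2 := h (show d + 1 ∈ bA k d ∪ bB d by simp [bA])
        rw [Finset.mem_singleton] at h1 h2
        omega
      · intro h
        have h1 := h (show d ∈ bB d ∪ bC k d by simp [bB])
        have h2 := h (show d + 2 ∈ bB d ∪ bC k d by simp [bC])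
        rw [Finset.mem_singleton] at h1 h2
        omega
      · intro h
        have h1 := h (show d + 2 ∈ bC k d ∪ bD by simp [bC])
        have h2 := h (show 0 ∈ bC k d ∪ bD by simp [bD])
        rw [Finset.mem_singleton] at h1 h2
        omega
      · intro h
        have h1 := h (show 0 ∈ bD ∪ bE by simp [bD])
        have h2 := h (show 1 ∈ bD ∪ bE by simp [bE])
        rw [Finset.mem_singleton] at h1 h2
        omega
      · intro h
        have h1 := h (show 1 ∈ bE ∪ bA k d by simp [bE])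
        have h2 := h (show 2 ∈ bE ∪ bA k d by simp [bE])
        rw [Finset.mem_singleton] at h1 h2
        omega
  refine ⟨hV, ?_⟩
  have hV' : verts (ex k d).faces = range (d + 3) := hV
  obtain ⟨l1, l2⟩ := t_LIN k d hk hd
  unfold IsPolytopeBoundary
  rw [hV']
  refine ⟨l2, fun F => ⟨fun hF => ?_, ?_⟩⟩
  · have hF' : F ∈ exF k d := hF
    refine ⟨?_, ?_⟩
    · rw [Finset.ssubset_iff_subset_ne]
      refine ⟨((mem_exF k d F).1 hF').1, ?_⟩
      rintro rfl
      apply ((mem_exF k d _).1 hF').2.2.2.2.1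
      intro x hx
      simp [bD, bE] at hx
      rw [Finset.mem_range]
      omega
    · obtain ⟨s, hs, h0, hpos⟩ := hE k d hk hd F hF'
      obtain ⟨ℓ, c, hℓ⟩ := (l1 s).2 hs
      refine ⟨ℓ, c, fun v hv => ?_, fun v hv hvF => ?_⟩
      · rw [hℓ v (((mem_exF k d F).1 hF').1 hv), h0 v hv, sub_zero]
      · rw [hℓ v hv]
        have := hpos v hv hvF
        linarith
  · rintro ⟨hF, ℓ, c, hin, hout⟩
    refine t_CONV k d hk hd F hF (fun v => c - ℓ (pt k d v)) ?_ ?_ ?_
    · rw [← l1]
      exact ⟨ℓ, c, fun v _ => by ring⟩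
    · intro v hv
      show c - ℓ (pt k d v) = 0
      rw [hin v hv, sub_self]
    · intro v hv hvF
      have := hout v hv hvF
      show 0 < c - ℓ (pt k d v)
      linarith

end Pool.Agent.Y181.NC
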