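import Pool.Agent.Y181.NC.Pt

set_option autoImplicit false

open Finset
open Pool.Agent.Results.MP_3cda5a_co.NoCellComplex

namespace Pool.Agent.Y181.NC

theorem arith (P1 P2 P3 P4 : Prop) (k d w wA wB wC wD wE : ℕ) (hk : 3 ≤ k) (hd : 2 * k ≤ d)
    (hw : w ≤ wA + wB + wC + wD + wE) (bA : wA ≤ d - k) (bB : wB ≤ 1) (bC : wC ≤ k - 1)
    (bD : wD ≤ 1) (bE : wE ≤ 2) (fA : ¬ P1 → wA = 0) (fB : ¬ P1 → ¬ P2 → wB = 0)
    (fC : ¬ P2 → ¬ P3 → wC = 0) (fD : ¬ P3 → ¬ P4 → wD = 0) (fE : ¬ P4 → wE = 0)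
    (g0 : d ≤ w) (g1 : P1 → d + 1 ≤ w) (g13 : P1 → P3 → d + 2 ≤ w) (g14 : P1 → P4 → d + 2 ≤ w)
    (g24 : P2 → P4 → d + 2 ≤ w) (nall : ¬ (P1 ∧ P4 ∧ (P2 ∨ P3))) : False := by
  by_cases p1 : P1 <;> by_cases p2 : P2 <;> by_cases p3 : P3 <;> by_cases p4 : P4 <;>
    simp [p1, p2, p3, p4] at fA fB fC fD fE g1 g13 g14 g24 nall <;> omega

section cards

variable {k d : ℕ}

theorem card_bA (hd : k < d) : (bA k d).card = d - k := by
  unfold bA
  rw [Finset.card_union_of_disjoint, Nat.card_Ico, Finset.card_singleton]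
  · omega
  · rw [Finset.disjoint_singleton_right, Finset.mem_Ico]
    omega

theorem card_bC (hk : 3 ≤ k) (hd : k < d) : (bC k d).card = k - 1 := by
  unfold bC
  rw [Finset.card_union_of_disjoint, Nat.card_Ico, Finset.card_singleton]
  · omega
  · rw [Finset.disjoint_singleton_right, Finset.mem_Ico]
    omega

theorem card_bE : bE.card = 2 := by decide

theorem card_AB (hd : k < d) : (bA k d ∪ bB d).card ≤ d - k + 1 := by
  refine (Finset.card_union_le _ _).trans ?_
  rw [card_bA hd]
  simp [bB]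

theorem card_BC (hk : 3 ≤ k) (hd : k < d) : (bB d ∪ bC k d).card ≤ k := by
  refine (Finset.card_union_le _ _).trans ?_
  rw [card_bC hk hd]
  simp [bB]
  omega

theorem card_CD (hk : 3 ≤ k) (hd : k < d) : (bC k d ∪ bD).card ≤ k := by
  refine (Finset.card_union_le _ _).trans ?_
  rw [card_bC hk hd]
  simp [bD]
  omega

theorem card_DE : (bD ∪ bE).card ≤ 3 := by decide

theorem card_EA (hk : 3 ≤ k) (hd : k < d) : (bE ∪ bA k d).card = d - k + 2 := by
  rw [Finset.card_union_of_disjoint, card_bA hd, card_bE]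
  · omega
  · rw [Finset.disjoint_left]
    intro x hx hx'
    simp [bE, bA] at hx hx'
    omega

end cards

/-- The conditions of an admissible cell complex without the condition `g_k(Σ) = 1`. -/
structure Weak (k d : ℕ) (Δ K D S : Cplx) : Prop where
  /-- `D` is a `d`-ball and `Σ = ∂D` -/
  cell : IsBall ℝ d D S
  /-- `Σ` is contained in `K` -/
  sub : S.faces ⊆ K.faces
  /-- every face of `K` of dimension at most `d - k` is a face of `Δ` -/
  low : ∀ τ ∈ K.faces, τ.card ≤ d - k + 1 → τ ∈ Δ.faces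
  /-- `Σ` is in `S(d - k, d - 1)` -/
  sph : InS (d - k) d S
  /-- every face of `K` meets the cell in a face of `Σ` -/
  meet : ∀ τ ∈ K.faces, τ ∩ verts S.faces ∈ S.faces
  /-- the union is a `d`-ball with boundary complex `Δ` -/
  ball : IsBall ℝ d (K.union D) Δ

theorem Weak.of {k d : ℕ} {Δ K D S : Cplx} (h : Admissible k d Δ K D S) : Weak k d Δ K D S :=
  ⟨h.cell, h.sub, h.low, h.sph, h.meet, h.ball⟩

theorem t_NOW (k d : ℕ) (hk : 3 ≤ k) (hd : 2 * k ≤ d) : ¬ ∃ K D S : Cplx, Weak k d (ex k d) K D S := by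
  rintro ⟨K, D, S, hA⟩
  have hkd : k < d := by omega
  have hΔK : exF k d ⊆ K.faces := boundary_sub hA.cell.2.2.2.1 hA.sub hA.ball.2.2.2.1
  obtain ⟨W, hW⟩ : ∃ W, W = verts S.faces := ⟨_, rfl⟩
  have cAB := card_AB (k := k) (d := d) hkd
  have cBC := card_BC (k := k) (d := d) hk hkd
  have cCD := card_CD (k := k) (d := d) hk hkd
  have cDE := card_DE
  have cEA := card_EA (k := k) (d := d) hk hkd
  -- small faces
  have hsmall : ∀ F : Finset ℕ, F.card ≤ d - k + 1 → F ⊆ W → (F ∈ S.faces ↔ F ∈ exF k d) := by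
    intro F hF hFW
    constructor
    · intro h
      exact hA.low F (hA.sub h) hF
    · intro h
      have h1 := hA.meet F (hΔK h)
      rwa [← hW, Finset.inter_eq_left.2 hFW] at h1
  have hWr : W ⊆ range (d + 3) := by
    intro v hv
    have h1 : ({v} : Finset ℕ) ∈ S.faces := single_mem S (by rwa [← hW])
    have h2 := (hsmall {v} (by simp) (Finset.singleton_subset_iff.2 hv)).1 h1
    exact ((mem_exF k d _).1 h2).1 (Finset.mem_singleton_self v)
  have hSW : ∀ F, F ∈ S.faces ↔ F ⊆ W ∧ ¬ bA k d ∪ bB d ⊆ F ∧ ¬ bB d ∪ bC k d ⊆ F ∧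
      ¬ bC k d ∪ bD ⊆ F ∧ ¬ bD ∪ bE ⊆ F := by
    intro F
    constructor
    · intro hF
      have hFW : F ⊆ W := by rw [hW]; exact sub_verts S hF
      have key : ∀ M : Finset ℕ, M.card ≤ d - k + 1 → M ∉ exF k d → ¬ M ⊆ F := by
        intro M hM hMe hMF
        exact hMe ((hsmall M hM (hMF.trans hFW)).1 (S.down F hF M hMF))
      refine ⟨hFW, key _ cAB ?_, key _ (by omega) ?_, key _ (by omega) ?_, key _ (by omega) ?_⟩
      · intro h
        exact ((mem_exF k d _).1 h).2.1 subset_rfl
      · intro h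
        exact ((mem_exF k d _).1 h).2.2.1 subset_rfl
      · intro h
        exact ((mem_exF k d _).1 h).2.2.2.1 subset_rfl
      · intro h
        exact ((mem_exF k d _).1 h).2.2.2.2.1 subset_rfl
    · rintro ⟨hFW, m1, m2, m3, m4⟩
      by_contra hF
      obtain ⟨G, hGF, hG, hGm⟩ := exists_missing S F hF
      have hGc : G.card ≤ d - k + 1 := hA.sph.2 G ⟨hG, hGm⟩
      apply hG
      rw [hsmall G hGc (hGF.trans hFW), mem_exF]
      refine ⟨(hGF.trans hFW).trans hWr, fun h => m1 (h.trans hGF), fun h => m2 (h.trans hGF),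
        fun h => m3 (h.trans hGF), fun h => m4 (h.trans hGF), ?_⟩
      intro h
      have h5 := Finset.card_le_card h
      omega
  have hpure := hA.sph.1.1
  have hle : ∀ F ∈ S.faces, F.card ≤ d := hpure.1
  -- no cone points
  have hcone : ∀ v ∈ W, (v ∈ bA k d ∪ bB d ∧ bA k d ∪ bB d ⊆ W) ∨
      (v ∈ bB d ∪ bC k d ∧ bB d ∪ bC k d ⊆ W) ∨ (v ∈ bC k d ∪ bD ∧ bC k d ∪ bD ⊆ W) ∨
      (v ∈ bD ∪ bE ∧ bD ∪ bE ⊆ W) := by
    intro v hv
    by_contra hcon
    push Not at hcon
    obtain ⟨n1, n2, n3, n4⟩ := hcon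
    have hins : ∀ F ∈ S.faces, insert v F ∈ S.faces := by
      intro F hF
      obtain ⟨hFW, m1, m2, m3, m4⟩ := (hSW F).1 hF
      have hIW : insert v F ⊆ W := Finset.insert_subset hv hFW
      have key : ∀ M : Finset ℕ, ¬ M ⊆ F → (v ∈ M → ¬ M ⊆ W) → ¬ M ⊆ insert v F := by
        intro M hM hvM hMI
        have hvM' : v ∉ M := fun h => hvM h (hMI.trans hIW)
        apply hM
        intro x hx
        rcases Finset.mem_insert.1 (hMI hx) with h | h
        · exact absurd (h ▸ hx) hvM'
        · exact h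
      exact (hSW _).2 ⟨hIW, key _ m1 n1, key _ m2 n2, key _ m3 n3, key _ m4 n4⟩
    obtain ⟨τ, hτS, hvτ, hτc⟩ := hpure.2 {v} (single_mem S (by rwa [← hW]))
    have hvτ' : v ∈ τ := hvτ (Finset.mem_singleton_self v)
    have hρ : τ.erase v ∈ S.faces := S.down τ hτS _ (Finset.erase_subset _ _)
    have hρc : (τ.erase v).card = d - 1 := by rw [Finset.card_erase_of_mem hvτ', hτc]
    have hl := hA.sph.1.2 _ hρ
    have e1 : d - (τ.erase v).card = 1 := by omega
    rw [e1] at hl
    have hlink : link S.faces (τ.erase v) = {∅, {v}} := by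
      ext σ
      unfold link
      simp only [Finset.mem_filter, Finset.mem_insert, Finset.mem_singleton]
      constructor
      · rintro ⟨h1, h2, h3⟩
        have h4 := hle _ (hins _ h3)
        have h5 : σ ⊆ {v} := by
          intro x hx
          rw [Finset.mem_singleton]
          by_contra hxv
          have hxρ : x ∉ τ.erase v := Finset.disjoint_left.1 h2 hx
          have h6 : insert x (insert v (τ.erase v)) ⊆ insert v (σ ∪ τ.erase v) := by
            intro y hy
            simp only [Finset.mem_insert, Finset.mem_union] at hy ⊢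
            rcases hy with h | h | h
            · right; left; rw [h]; exact hx
            · left; exact h
            · right; right; exact h
          have h7 := Finset.card_le_card h6
          rw [Finset.card_insert_of_notMem, Finset.card_insert_of_notMem
            (Finset.notMem_erase v τ), hρc] at h7
          · omega
          · rw [Finset.mem_insert]
            rintro (h | h)
            · exact hxv h
            · exact hxρ h
        rcases Finset.subset_singleton_iff.1 h5 with h | h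
        · left; exact h
        · right; exact h
      · rintro (h | h)
        · subst h
          exact ⟨S.empty_mem, Finset.disjoint_empty_left _, by rwa [Finset.empty_union]⟩
        · subst h
          refine ⟨S.down τ hτS _ hvτ, ?_, ?_⟩
          · rw [Finset.disjoint_singleton_left]
            exact Finset.notMem_erase v τ
          · have : ({v} : Finset ℕ) ∪ τ.erase v = τ := by
              rw [← Finset.insert_eq, Finset.insert_erase hvτ']
            rwa [this]
    rw [hlink] at hl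
    exact t_PT v hl
  -- a facet
  obtain ⟨τ, hτS, -, hτc⟩ := hpure.2 ∅ S.empty_mem
  obtain ⟨hτW, t1, t2, t3, t4⟩ := (hSW τ).1 hτS
  have hcard : W.card = d + (W \ τ).card := by
    have := Finset.card_sdiff_add_card_eq_card hτW
    omega
  have hone : ∀ M : Finset ℕ, ¬ M ⊆ τ → M ⊆ W → ∃ x ∈ W \ τ, x ∈ M := by
    intro M hM hMW
    obtain ⟨x, hx, hxτ⟩ := Finset.not_subset.1 hM
    exact ⟨x, Finset.mem_sdiff.2 ⟨hMW hx, hxτ⟩, hx⟩
  have hg1 : ∀ M : Finset ℕ, ¬ M ⊆ τ → M ⊆ W → d + 1 ≤ W.card := by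
    intro M hM hMW
    obtain ⟨x, hx, -⟩ := hone M hM hMW
    have := Finset.card_pos.2 ⟨x, hx⟩
    omega
  have hg2 : ∀ M M' : Finset ℕ, ¬ M ⊆ τ → M ⊆ W → ¬ M' ⊆ τ → M' ⊆ W → Disjoint M M' →
      d + 2 ≤ W.card := by
    intro M M' hM hMW hM' hMW' hdis
    obtain ⟨x, hx, hxM⟩ := hone M hM hMW
    obtain ⟨y, hy, hyM⟩ := hone M' hM' hMW'
    have hxy : x ≠ y := by
      rintro rfl
      exact Finset.disjoint_left.1 hdis hxM hyM
    have := Finset.one_lt_card.2 ⟨x, hx, y, hy, hxy⟩
    omega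
  -- membership tests
  have hcov : ∀ v ∈ W, v ∈ bA k d ∨ v ∈ bB d ∨ v ∈ bC k d ∨ v ∈ bD ∨ v ∈ bE := by
    intro v hv
    have := Finset.mem_range.1 (hWr hv)
    simp [bA, bB, bC, bD, bE]
    omega
  have hz : ∀ X : Finset ℕ, (∀ v ∈ W, v ∉ X) → (W ∩ X).card = 0 := by
    intro X h
    rw [Finset.card_eq_zero, Finset.eq_empty_iff_forall_notMem]
    intro v hv
    rw [Finset.mem_inter] at hv
    exact h v hv.1 hv.2
  refine arith (bA k d ∪ bB d ⊆ W) (bB d ∪ bC k d ⊆ W) (bC k d ∪ bD ⊆ W) (bD ∪ bE ⊆ W) k d W.card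
    (W ∩ bA k d).card (W ∩ bB d).card (W ∩ bC k d).card (W ∩ bD).card (W ∩ bE).card hk hd
    ?_ ?_ ?_ ?_ ?_ ?_ ?_ ?_ ?_ ?_ ?_ ?_ ?_ ?_ ?_ ?_ ?_
  · have h1 : W ⊆ (W ∩ bA k d) ∪ (W ∩ bB d) ∪ (W ∩ bC k d) ∪ (W ∩ bD) ∪ (W ∩ bE) := by
      intro v hv
      simp only [Finset.mem_union, Finset.mem_inter]
      rcases hcov v hv with h | h | h | h | h
      · exact Or.inl (Or.inl (Or.inl (Or.inl ⟨hv, h⟩)))
      · exact Or.inl (Or.inl (Or.inl (Or.inr ⟨hv, h⟩)))
      · exact Or.inl (Or.inl (Or.inr ⟨hv, h⟩))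
      · exact Or.inl (Or.inr ⟨hv, h⟩)
      · exact Or.inr ⟨hv, h⟩
    refine (Finset.card_le_card h1).trans ?_
    refine (Finset.card_union_le _ _).trans (Nat.add_le_add_right ?_ _)
    refine (Finset.card_union_le _ _).trans (Nat.add_le_add_right ?_ _)
    refine (Finset.card_union_le _ _).trans (Nat.add_le_add_right ?_ _)
    exact Finset.card_union_le _ _
  · rw [← card_bA hkd]
    exact Finset.card_le_card Finset.inter_subset_right
  · exact Finset.card_le_card (t := bB d) Finset.inter_subset_right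
  · rw [← card_bC hk hkd]
    exact Finset.card_le_card Finset.inter_subset_right
  · exact Finset.card_le_card (t := bD) Finset.inter_subset_right
  · exact Finset.card_le_card (t := bE) Finset.inter_subset_right
  · intro n
    apply hz
    intro v hv hX
    have hb := Finset.mem_range.1 (hWr hv)
    rcases hcone v hv with ⟨h, h'⟩ | ⟨h, h'⟩ | ⟨h, h'⟩ | ⟨h, h'⟩
    · exact n h'
    all_goals
      simp [bA, bB, bC, bD, bE] at h hX
      omega
  · intro n n'
    apply hz
    intro v hv hX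
    have hb := Finset.mem_range.1 (hWr hv)
    rcases hcone v hv with ⟨h, h'⟩ | ⟨h, h'⟩ | ⟨h, h'⟩ | ⟨h, h'⟩
    · exact n h'
    · exact n' h'
    all_goals
      simp [bA, bB, bC, bD, bE] at h hX
      omega
  · intro n n'
    apply hz
    intro v hv hX
    have hb := Finset.mem_range.1 (hWr hv)
    rcases hcone v hv with ⟨h, h'⟩ | ⟨h, h'⟩ | ⟨h, h'⟩ | ⟨h, h'⟩
    · simp [bA, bB, bC, bD, bE] at h hX
      omega
    · exact n h'
    · exact n' h'
    · simp [bA, bB, bC, bD, bE] at h hX
      omega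
  · intro n n'
    apply hz
    intro v hv hX
    have hb := Finset.mem_range.1 (hWr hv)
    rcases hcone v hv with ⟨h, h'⟩ | ⟨h, h'⟩ | ⟨h, h'⟩ | ⟨h, h'⟩
    · simp [bA, bB, bC, bD, bE] at h hX
      omega
    · simp [bA, bB, bC, bD, bE] at h hX
      omega
    · exact n h'
    · exact n' h'
  · intro n
    apply hz
    intro v hv hX
    have hb := Finset.mem_range.1 (hWr hv)
    rcases hcone v hv with ⟨h, h'⟩ | ⟨h, h'⟩ | ⟨h, h'⟩ | ⟨h, h'⟩
    · simp [bA, bB, bC, bD, bE] at h hX
      omega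
    · simp [bA, bB, bC, bD, bE] at h hX
      omega
    · simp [bA, bB, bC, bD, bE] at h hX
      omega
    · exact n h'
  · omega
  · exact hg1 _ t1
  · intro p q
    refine hg2 _ _ t1 p t3 q ?_
    rw [Finset.disjoint_left]
    intro x hx hx'
    simp [bA, bB, bC, bD, bE] at hx hx'
    omega
  · intro p q
    refine hg2 _ _ t1 p t4 q ?_
    rw [Finset.disjoint_left]
    intro x hx hx'
    simp [bA, bB, bC, bD, bE] at hx hx'
    omega
  · intro p q
    refine hg2 _ _ t2 p t4 q ?_
    rw [Finset.disjoint_left]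
    intro x hx hx'
    simp [bA, bB, bC, bD, bE] at hx hx'
    omega
  · rintro ⟨p1, p4, p23⟩
    have hCW : bC k d ⊆ W := by
      rcases p23 with h | h
      · exact (Finset.subset_union_right).trans h
      · exact (Finset.subset_union_left).trans h
    have hWeq : W = range (d + 3) := by
      apply Finset.Subset.antisymm hWr
      intro v hv
      rw [Finset.mem_range] at hv
      have : v ∈ bA k d ∪ bB d ∨ v ∈ bC k d ∨ v ∈ bD ∪ bE := by
        simp [bA, bB, bC, bD, bE]
        omega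
      rcases this with h | h | h
      · exact p1 h
      · exact hCW h
      · exact p4 h
    have hF : ((range (d + 3)).erase d).erase 0 ∈ S.faces := by
      rw [hSW, hWeq]
      refine ⟨(Finset.erase_subset _ _).trans (Finset.erase_subset _ _), ?_, ?_, ?_, ?_⟩
      · intro h
        have h1 := h (show d ∈ bA k d ∪ bB d by simp [bB])
        simp at h1
      · intro h
        have h1 := h (show d ∈ bB d ∪ bC k d by simp [bB])
        simp at h1
      · intro h
        have h1 := h (show 0 ∈ bC k d ∪ bD by simp [bD])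
        simp at h1
      · intro h
        have h1 := h (show 0 ∈ bD ∪ bE by simp [bD])
        simp at h1
    have h2 := hle _ hF
    rw [Finset.card_erase_of_mem, Finset.card_erase_of_mem, Finset.card_range] at h2
    · omega
    · simp
    · simp
      omega

theorem t_NO : S_NO := by
  rintro k d hk hd ⟨K, D, S, hA⟩
  exact t_NOW k d hk hd ⟨K, D, S, Weak.of hA⟩

end Pool.Agent.Y181.NC
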