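import Pool.Agent.Y181.NC.Stm

set_option autoImplicit false

open Finset
open Pool.Agent.Results.MP_3cda5a_co.NoCellComplex

namespace Pool.Agent.Y181.NC

theorem rank_pos {K m n : Type} [Field K] [Fintype m] [Fintype n] [DecidableEq n]
    (M : Matrix m n K) (i : m) (j : n) (h : M i j ≠ 0) : 0 < M.rank := by
  rw [Nat.pos_iff_ne_zero]
  intro h0
  rw [Matrix.rank, Submodule.finrank_eq_zero, LinearMap.range_eq_bot] at h0
  have h1 : M.mulVecLin (Pi.single j 1) = 0 := by rw [h0, LinearMap.zero_apply]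
  rw [Matrix.mulVecLin_apply, Matrix.mulVec_single_one] at h1
  exact h (congrFun h1 i)

theorem t_PT : S_PT := by
  intro v h
  have h1 := h 1
  have l0 : level ({∅, {v}} : Finset (Finset ℕ)) 0 = {∅} := by
    unfold level
    ext τ
    simp only [Finset.mem_filter, Finset.mem_insert, Finset.mem_singleton]
    constructor
    · rintro ⟨_, h⟩
      exact Finset.card_eq_zero.1 h
    · rintro rfl
      exact ⟨Or.inl rfl, rfl⟩
  have l1 : level ({∅, {v}} : Finset (Finset ℕ)) 1 = {{v}} := by
    unfold level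
    ext τ
    simp only [Finset.mem_filter, Finset.mem_insert, Finset.mem_singleton]
    constructor
    · rintro ⟨h | h, h'⟩
      · rw [h] at h'
        simp at h'
      · exact h
    · rintro rfl
      exact ⟨Or.inr rfl, by simp⟩
  have c1 : (level ({∅, {v}} : Finset (Finset ℕ)) 1).card = 1 := by rw [l1]; simp
  unfold betti at h1
  rw [c1] at h1
  have m0 : (∅ : Finset ℕ) ∈ level ({∅, {v}} : Finset (Finset ℕ)) 0 := by rw [l0]; simp
  have m1 : ({v} : Finset ℕ) ∈ level ({∅, {v}} : Finset (Finset ℕ)) (0 + 1) := by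
    rw [Nat.zero_add, l1]; simp
  have hr : 0 < (bdry (ZMod 2) ({∅, {v}} : Finset (Finset ℕ)) 0).rank := by
    apply rank_pos _ ⟨∅, m0⟩ ⟨{v}, m1⟩
    unfold bdry
    rw [if_pos (Finset.empty_subset _)]
    exact pow_ne_zero _ (by decide)
  rw [if_neg one_ne_zero, if_pos rfl] at h1
  have e : (1 : ℕ) - 1 = 0 := rfl
  rw [e] at h1
  omega

end Pool.Agent.Y181.NC
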