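import Mathlib

/-!
Statements for the general form of `MP_3cda5a_co.NoCellComplex`: for all `k ≥ 3` and `d ≥ 2k` the
simplicial `d`-polytope with `d + 3` vertices whose missing faces are the unions of two neighbouring
blocks of a pentagon with blocks of sizes `d - k, 1, k - 1, 1, 2`.
-/

set_option autoImplicit false

open Finset

namespace Pool.Agent.Y181.NC

/-- block of size `d - k` -/
def bA (k d : ℕ) : Finset ℕ := Ico (k + 1) d ∪ {d + 1}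
/-- block of size `1` -/
def bB (d : ℕ) : Finset ℕ := {d}
/-- block of size `k - 1` -/
def bC (k d : ℕ) : Finset ℕ := Ico 3 (k + 1) ∪ {d + 2}
/-- block of size `1` -/
def bD : Finset ℕ := {0}
/-- block of size `2` -/
def bE : Finset ℕ := {1, 2}

/-- the faces of the example: the missing faces are the unions of two neighbouring blocks -/
def exF (k d : ℕ) : Finset (Finset ℕ) := (range (d + 3)).powerset.filter fun F =>
  ¬ bA k d ∪ bB d ⊆ F ∧ ¬ bB d ∪ bC k d ⊆ F ∧ ¬ bC k d ∪ bD ⊆ F ∧ ¬ bD ∪ bE ⊆ F ∧ ¬ bE ∪ bA k d ⊆ F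

theorem mem_exF (k d : ℕ) (F : Finset ℕ) : F ∈ exF k d ↔ F ⊆ range (d + 3) ∧
    ¬ bA k d ∪ bB d ⊆ F ∧ ¬ bB d ∪ bC k d ⊆ F ∧ ¬ bC k d ∪ bD ⊆ F ∧ ¬ bD ∪ bE ⊆ F ∧
    ¬ bE ∪ bA k d ⊆ F := by
  unfold exF
  rw [Finset.mem_filter, Finset.mem_powerset]

/-- the binomial identities which give the `h`-numbers -/
def S_BIN : Prop :=
  (∀ d j : ℕ, j ≤ d → ∑ i ∈ range (j + 1), (-1 : ℤ) ^ (j - i) * ((d - i).choose (d - j) : ℤ) *
      ((d + 3).choose i : ℤ) = ((j + 2).choose 2 : ℤ)) ∧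
  (∀ d j : ℕ, 3 ≤ d → j ≤ d → ∑ i ∈ range (j + 1), (-1 : ℤ) ^ (j - i) *
      ((d - i).choose (d - j) : ℤ) * (if 3 ≤ i then (d.choose (i - 3) : ℤ) else 0) =
        if 3 ≤ j then ((j - 1).choose 2 : ℤ) else 0)

/-- the numbers of faces with at most `k` elements -/
def S_CNT : Prop := ∀ k d i : ℕ, 3 ≤ k → 2 * k ≤ d → i ≤ k →
  (((exF k d).filter fun τ => τ.card = i).card : ℤ) = ((d + 3).choose i : ℤ) -
    (if 3 ≤ i then (d.choose (i - 3) : ℤ) else 0) - (if i = k then 2 else 0)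

/-- the vertices of the polytope -/
noncomputable def pt (k d : ℕ) (v : ℕ) (i : Fin d) : ℝ :=
  if v < d then (if i.1 = v then 1 else 0)
  else if v = d + 1 then
    (if k < i.1 then -1 else if i.1 = 0 then 2 * ((d : ℝ) - k) else
      if i.1 ≤ 2 then ((k : ℝ) - 1) / 2 else 0)
  else if v = d + 2 then
    (if k < i.1 then 0 else if i.1 = 0 then (d : ℝ) - k else
      if i.1 ≤ 2 then (k : ℝ) - 1 else -1)
  else 0

/-- the two linear relations satisfied by the slacks -/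
def Rel (k d : ℕ) (s : ℕ → ℝ) : Prop :=
  ∑ v ∈ bA k d, s v + ((d : ℝ) - 1) * s d = 2 * ((d : ℝ) - k) * s 0 +
    ((k : ℝ) - 1) / 2 * (s 1 + s 2) ∧
  ((d : ℝ) - 1) * s d + ∑ v ∈ bC k d, s v = ((d : ℝ) - k) * s 0 + ((k : ℝ) - 1) * (s 1 + s 2)

/-- the functions `c - ℓ` on the vertices are exactly the functions with the two relations -/
def S_LIN : Prop := ∀ k d : ℕ, 3 ≤ k → 2 * k ≤ d →
  (∀ s : ℕ → ℝ, (∃ (ℓ : (Fin d → ℝ) →ₗ[ℝ] ℝ) (c : ℝ), ∀ v ∈ range (d + 3),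
    ℓ (pt k d v) = c - s v) ↔ Rel k d s) ∧
  ∀ (ℓ : (Fin d → ℝ) →ₗ[ℝ] ℝ) (c : ℝ), (∀ v ∈ range (d + 3), ℓ (pt k d v) = c) → ℓ = 0

/-- every pattern of supports which covers the pentagon is possible -/
def S_FIVE : Prop := ∀ (α γ : ℝ), 0 < α → 0 < γ → ∀ pa pb pc pd pe : Prop,
  (pa ∨ pb) → (pb ∨ pc) → (pc ∨ pd) → (pd ∨ pe) → (pe ∨ pa) →
  ∃ A B C D E : ℝ, (0 ≤ A ∧ 0 ≤ B ∧ 0 ≤ C ∧ 0 ≤ D ∧ 0 ≤ E) ∧
    ((0 < A ↔ pa) ∧ (0 < B ↔ pb) ∧ (0 < C ↔ pc) ∧ (0 < D ↔ pd) ∧ (0 < E ↔ pe)) ∧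
    A + (α + γ) * B = 2 * α * D + γ / 2 * E ∧ (α + γ) * B + C = α * D + γ * E

/-- every face is exposed -/
def S_EXP : Prop := ∀ k d : ℕ, 3 ≤ k → 2 * k ≤ d → ∀ F ∈ exF k d, ∃ s : ℕ → ℝ, Rel k d s ∧
  (∀ v ∈ F, s v = 0) ∧ ∀ v ∈ range (d + 3), v ∉ F → 0 < s v

/-- every exposed proper subset is a face -/
def S_CONV : Prop := ∀ k d : ℕ, 3 ≤ k → 2 * k ≤ d → ∀ F ⊂ range (d + 3), ∀ s : ℕ → ℝ, Rel k d s →
  (∀ v ∈ F, s v = 0) → (∀ v ∈ range (d + 3), v ∉ F → 0 < s v) → F ∈ exF k d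


end Pool.Agent.Y181.NC
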