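import Pool.Agent.Results.MP_3cda5a_co.NoCellComplex
import Pool.Agent.Y181.NC.Stm0

/-!
Statements for the general form of `MP_3cda5a_co.NoCellComplex`: for all `k ≥ 3` and `d ≥ 2k` the
simplicial `d`-polytope with `d + 3` vertices whose missing faces are the unions of two neighbouring
blocks of a pentagon with blocks of sizes `d - k, 1, k - 1, 1, 2`.
-/

set_option autoImplicit false

open Finset
open Pool.Agent.Results.MP_3cda5a_co.NoCellComplex

namespace Pool.Agent.Y181.NC

/-- the example -/
def ex (k d : ℕ) : Cplx where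
  faces := exF k d
  empty_mem := by
    rw [mem_exF]
    refine ⟨empty_subset _, ?_, ?_, ?_, ?_, ?_⟩ <;> intro h <;>
      simp [bA, bB, bC, bD, bE] at h
  down := by
    intro F hF G hG
    rw [mem_exF] at hF ⊢
    exact ⟨hG.trans hF.1, fun h => hF.2.1 (h.trans hG), fun h => hF.2.2.1 (h.trans hG),
      fun h => hF.2.2.2.1 (h.trans hG), fun h => hF.2.2.2.2.1 (h.trans hG),
      fun h => hF.2.2.2.2.2 (h.trans hG)⟩

/-- the `g`-number -/
def S_G : Prop := ∀ k d : ℕ, 3 ≤ k → 2 * k ≤ d → gNum d (exF k d) k = 1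

/-- the polytope -/
def S_POL : Prop := ∀ k d : ℕ, 3 ≤ k → 2 * k ≤ d → verts (exF k d) = range (d + 3) ∧
  IsPolytopeBoundary d (pt k d) (ex k d)

/-- a complex with one vertex and no other nonempty face does not have the homology of the
zero-dimensional sphere -/
def S_PT : Prop := ∀ v : ℕ, ¬ SphereHom (ZMod 2) ({∅, {v}} : Finset (Finset ℕ)) 1

/-- no admissible cell complex -/
def S_NO : Prop := ∀ k d : ℕ, 3 ≤ k → 2 * k ≤ d → ¬ ∃ K D S : Cplx, Admissible k d (ex k d) K D S

end Pool.Agent.Y181.NC
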